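import Mathlib

namespace Pool.Agent.Results.MP_2b20db_nt.Full

/-- `D*_n`: the differences `|a - b|` of complementary positive divisors `a b = n`. -/
def Dstar (n : ℕ) : Set ℕ :=
  {d | ∃ a b : ℕ, 0 < a ∧ 0 < b ∧ a * b = n ∧ d = ((a : ℤ) - b).natAbs}

/-- `D⁺_n`: the sums `x + y` of two nonzero elements of `D*_n`. -/
def Dplus (n : ℕ) : Set ℕ :=
  {s | ∃ x ∈ Dstar n, ∃ y ∈ Dstar n, x ≠ 0 ∧ y ≠ 0 ∧ s = x + y}

/-- the `Δ` property: `D*_n ∩ D⁺_n ≠ ∅`. -/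
def HasDelta (n : ℕ) : Prop := (Dstar n ∩ Dplus n).Nonempty

/-- `Δ`-primitive numbers. -/
def Primitive (n : ℕ) : Prop :=
  HasDelta n ∧ ¬ ∃ α m : ℕ, 2 ≤ α ∧ 2 ≤ m ∧ n = α ^ 2 * m ∧ HasDelta m

lemma dstar_mul {n d : ℕ} (α : ℕ) (hα : 0 < α) (h : d ∈ Dstar n) :
    α * d ∈ Dstar (α ^ 2 * n) := by
  obtain ⟨a, b, ha, hb, rfl, rfl⟩ := h
  refine ⟨α * a, α * b, by positivity, by positivity, by ring, ?_⟩
  push_cast
  rw [← mul_sub, Int.natAbs_mul, Int.natAbs_natCast]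

lemma delta_mul {n : ℕ} (α : ℕ) (hα : 0 < α) (h : HasDelta n) : HasDelta (α ^ 2 * n) := by
  obtain ⟨s, hs, x, hx, y, hy, hx0, hy0, rfl⟩ := h
  exact ⟨α * (x + y), dstar_mul α hα hs, α * x, dstar_mul α hα hx, α * y, dstar_mul α hα hy,
    by positivity, by positivity, by ring⟩

lemma dstar_pow {d : ℕ} (h : d ∈ Dstar (2 ^ 16)) :
    ∃ i, i < 17 ∧ d = (((2 : ℤ) ^ i - 2 ^ (16 - i))).natAbs := by
  obtain ⟨a, b, ha, hb, hab, rfl⟩ := h
  obtain ⟨i, hi, rfl⟩ := (Nat.dvd_prime_pow Nat.prime_two).1 (Dvd.intro b hab)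
  refine ⟨i, by omega, ?_⟩
  have : b = 2 ^ (16 - i) := by
    have h2 : 2 ^ i * b = 2 ^ i * 2 ^ (16 - i) := by rw [hab, ← pow_add]; congr 1; omega
    exact Nat.eq_of_mul_eq_mul_left ha h2
  rw [this]; push_cast; rfl

lemma fin_check : ∀ i j l : Fin 17,
    ((2 : ℤ) ^ j.val - 2 ^ (16 - j.val)).natAbs = 0 ∨
      ((2 : ℤ) ^ l.val - 2 ^ (16 - l.val)).natAbs = 0 ∨
      ((2 : ℤ) ^ j.val - 2 ^ (16 - j.val)).natAbs + ((2 : ℤ) ^ l.val - 2 ^ (16 - l.val)).natAbs ≠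
        ((2 : ℤ) ^ i.val - 2 ^ (16 - i.val)).natAbs := by decide +kernel

lemma not_delta : ¬ HasDelta (2 ^ 16) := by
  rintro ⟨s, hs, x, hx, y, hy, hx0, hy0, rfl⟩
  obtain ⟨i, hi, h1⟩ := dstar_pow hs
  obtain ⟨j, hj, rfl⟩ := dstar_pow hx
  obtain ⟨l, hl, rfl⟩ := dstar_pow hy
  rcases fin_check ⟨i, hi⟩ ⟨j, hj⟩ ⟨l, hl⟩ with h | h | h
  · exact hx0 h
  · exact hy0 h
  · exact h h1

lemma exists_prim (k : ℕ) (hk : 0 < k) (h : HasDelta (k ^ 2)) :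
    ∃ s, 0 < s ∧ Primitive (s ^ 2) ∧ s ∣ k := by
  induction k using Nat.strong_induction_on with
  | _ k ih =>
    by_cases hp : Primitive (k ^ 2)
    · exact ⟨k, hk, hp, dvd_rfl⟩
    · have : ∃ α m : ℕ, 2 ≤ α ∧ 2 ≤ m ∧ k ^ 2 = α ^ 2 * m ∧ HasDelta m := by
        by_contra hc
        exact hp ⟨h, hc⟩
      obtain ⟨α, m, hα, hm, e, hd⟩ := this
      have hdv : α ∣ k := (Nat.pow_dvd_pow_iff (two_ne_zero)).1 ⟨m, e⟩
      obtain ⟨c, rfl⟩ := hdv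
      have hc : 0 < c := Nat.pos_of_mul_pos_left hk
      have e2 : m = c ^ 2 := by
        have : α ^ 2 * m = α ^ 2 * c ^ 2 := by rw [← e]; ring
        exact Nat.eq_of_mul_eq_mul_left (by positivity) this
      obtain ⟨s, h1, h2, h3⟩ := ih c (by nlinarith) hc (e2 ▸ hd)
      exact ⟨s, h1, h2, h3.mul_left α⟩

lemma mem_dstar {n a b d : ℕ} (ha : 0 < a) (hd : b = a + d) (h : a * b = n) : d ∈ Dstar n :=
  ⟨b, a, by omega, ha, by rw [mul_comm, h], by omega⟩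

/-- the parametric family, with `λ = y + 11`. -/
lemma family (y : ℕ) :
    HasDelta (((y + 11) * (y ^ 3 + 32 * y ^ 2 + 340 * y + 1196) *
      (y ^ 3 + 36 * y ^ 2 + 428 * y + 1684) * (y ^ 3 + 32 * y ^ 2 + 344 * y + 1244) *
      (3 * y ^ 3 + 100 * y ^ 2 + 1112 * y + 4124)) ^ 2) := by
  set l := y + 11 with hl
  set u := y ^ 3 + 32 * y ^ 2 + 340 * y + 1196 with hu
  set v := y ^ 3 + 36 * y ^ 2 + 428 * y + 1684 with hv
  set w := y ^ 3 + 32 * y ^ 2 + 344 * y + 1244 with hw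
  set z := 3 * y ^ 3 + 100 * y ^ 2 + 1112 * y + 4124 with hz
  have key : l ^ 2 * u ^ 2 * v ^ 2 + l * u ^ 2 * v ^ 2 + v ^ 2 * z ^ 2 =
      w ^ 2 * z ^ 2 + l * w ^ 2 * z ^ 2 + l ^ 2 * u ^ 2 * w ^ 2 := by
    rw [hl, hu, hv, hw, hz]; ring
  have pu : 0 < u := by positivity
  have pv : 0 < v := by positivity
  have pw : 0 < w := by positivity
  have pz : 0 < z := by positivity
  have pl : 0 < l := by positivity
  have h2 : u * v < w * z := by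
    have : w * z = u * v + (2 * y ^ 6 + 128 * y ^ 5 + 3424 * y ^ 4 + 49024 * y ^ 3 +
        396432 * y ^ 2 + 1717536 * y + 3116192) := by
      rw [hu, hv, hw, hz]; ring
    rw [this]; exact Nat.lt_add_of_pos_right (by positivity)
  have h3 : v * z < l * u * w := by
    have : l * u * w = v * z + (y ^ 7 + 72 * y ^ 6 + 2204 * y ^ 5 + 37120 * y ^ 4 +
        370640 * y ^ 3 + 2187024 * y ^ 2 + 7028368 * y + 9421248) := by
      rw [hl, hu, hv, hw, hz]; ring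
    rw [this]; exact Nat.lt_add_of_pos_right (by positivity)
  clear_value l u v w z
  clear hl hu hv hw hz
  have h2' : l * u ^ 2 * v ^ 2 < l * w ^ 2 * z ^ 2 := by
    have : (u * v) ^ 2 < (w * z) ^ 2 := Nat.pow_lt_pow_left h2 two_ne_zero
    have h := Nat.mul_lt_mul_of_pos_left this pl
    calc l * u ^ 2 * v ^ 2 = l * (u * v) ^ 2 := by ring
      _ < l * (w * z) ^ 2 := h
      _ = _ := by ring
  have h3' : v ^ 2 * z ^ 2 < l ^ 2 * u ^ 2 * w ^ 2 := by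
    have : (v * z) ^ 2 < (l * u * w) ^ 2 := Nat.pow_lt_pow_left h3 two_ne_zero
    calc v ^ 2 * z ^ 2 = (v * z) ^ 2 := by ring
      _ < (l * u * w) ^ 2 := this
      _ = _ := by ring
  obtain ⟨d2, e2⟩ := Nat.exists_eq_add_of_le h2'.le
  obtain ⟨d3, e3⟩ := Nat.exists_eq_add_of_le h3'.le
  refine ⟨d2 + d3, mem_dstar (a := w ^ 2 * z ^ 2) (b := l ^ 2 * u ^ 2 * v ^ 2) (by positivity)
    (by omega) (by ring), d2, mem_dstar (by positivity) e2 (by ring), d3,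
    mem_dstar (by positivity) e3 (by ring), by omega, by omega, rfl⟩

theorem result : {k : ℕ | 0 < k ∧ Primitive (k ^ 2)}.Infinite := by
  intro hfin
  set M := ∏ k ∈ hfin.toFinset, k with hM
  have hMpos : 0 < M := Finset.prod_pos fun k hk => (hfin.mem_toFinset.1 hk).1
  obtain ⟨t, ht⟩ : ∃ t, M = t + 1 := ⟨M - 1, by omega⟩
  obtain ⟨s, hs, hp, hd⟩ := exists_prim _ (by positivity) (family (10 * t))
  have hsM : s ∣ t + 1 := ht ▸ Finset.dvd_prod_of_mem _ (hfin.mem_toFinset.2 ⟨hs, hp⟩)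
  have h256 : s ∣ 256 := by
    have h1 : (s : ℤ) ∣ (t : ℤ) - (-1) := by
      rw [sub_neg_eq_add]; exact_mod_cast hsM
    have h2 := Int.natCast_dvd_natCast.2 hd
    push_cast at h2
    have h3 : (t : ℤ) ≡ -1 [ZMOD s] := (Int.modEq_iff_dvd.2 h1).symm
    have h4 : ((10 * (t : ℤ) + 11) * ((10 * t) ^ 3 + 32 * (10 * t) ^ 2 + 340 * (10 * t) + 1196) *
      ((10 * t) ^ 3 + 36 * (10 * t) ^ 2 + 428 * (10 * t) + 1684) *
      ((10 * t) ^ 3 + 32 * (10 * t) ^ 2 + 344 * (10 * t) + 1244) *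
      (3 * (10 * t) ^ 3 + 100 * (10 * t) ^ 2 + 1112 * (10 * t) + 4124)) ≡
      ((10 * (-1 : ℤ) + 11) * ((10 * -1) ^ 3 + 32 * (10 * -1) ^ 2 + 340 * (10 * -1) + 1196) *
      ((10 * -1) ^ 3 + 36 * (10 * -1) ^ 2 + 428 * (10 * -1) + 1684) *
      ((10 * -1) ^ 3 + 32 * (10 * -1) ^ 2 + 344 * (10 * -1) + 1244) *
      (3 * (10 * -1) ^ 3 + 100 * (10 * -1) ^ 2 + 1112 * (10 * -1) + 4124)) [ZMOD s] := by
      gcongr
    have h5 := (h4.dvd_iff).1 h2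
    norm_num at h5
    exact_mod_cast h5
  obtain ⟨c, hc⟩ := h256
  have hc0 : 0 < c := Nat.pos_of_mul_pos_left (by omega : 0 < s * c)
  have := delta_mul c hc0 hp.1
  rw [show c ^ 2 * s ^ 2 = (s * c) ^ 2 by ring, ← hc] at this
  exact not_delta this

end Pool.Agent.Results.MP_2b20db_nt.Full
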